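import Pool.Agent.H64.EK.Targets

/-!
# Row CSX (MP_fd35e1_ag): the sign conjecture is the vanishing of one class, even dimension
(adapted from the row CPS of helper69)
-/

set_option autoImplicit false

open Matrix Pool.Agent.H64.CC Pool.Agent.H2.NL Pool.Agent.H2.KM Pool.Agent.H64.EV
open Pool.Agent.H64.EK

namespace Pool.Agent.H44.EK

private theorem selz_rep {K : Type} [Field K] {I : Type} (o : I → Bool) (a : I)
    (ha : o a = true) : ∀ k : ℕ, selz (-1 : K) o (List.replicate (k + 1) a) =
      List.replicate (k + 1) ((1 : K), a, List.replicate k a)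
  | 0 => rfl
  | k + 1 => by
    have ih := selz_rep (K := K) o a ha k
    rw [List.replicate_succ, selz, ih, List.map_replicate, List.replicate_succ (n := k + 1)]
    congr 2
    rw [ha, ks_true_left, sg_true, neg_mul_neg, one_mul, one_mul, List.replicate_succ]

private theorem xp_rep {K : Type} [Field K] {I : Type} (o : I → Bool) (f : Matrix I I K) (a : I)
    (ha : o a = true) : ∀ k : ℕ, xp (-1 : K) o f (List.replicate k a) (List.replicate k a) =
      (k.factorial : K) * f a a ^ k
  | 0 => by simp [xp]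
  | k + 1 => by
    have ih := xp_rep o f a ha k
    have h1 : xp (-1 : K) o f (List.replicate (k + 1) a) (List.replicate (k + 1) a) =
        ((selz (-1 : K) o (List.replicate (k + 1) a)).map fun x =>
          x.1 * f a x.2.1 * xp (-1 : K) o f (List.replicate k a) x.2.2).sum := rfl
    rw [h1, selz_rep o a ha, List.map_replicate, List.sum_replicate, ih, one_mul, nsmul_eq_mul,
      Nat.factorial_succ]
    push_cast
    ring

private theorem idem_zero {K : Type} [Field K] [CharZero K] {n : ℕ} (M : Matrix (Fin n) (Fin n) K)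
    (h : M * M = M) (ht : M.trace = 0) : M = 0 := by
  have h1 : IsIdempotentElem (Matrix.toLin' M) := by
    change Matrix.toLin' M * Matrix.toLin' M = _
    rw [Module.End.mul_eq_comp, ← Matrix.toLin'_mul, h]
  have h3 : Matrix.toLin' M = 0 := by
    apply LinearMap.IsIdempotentElem.eq_zero_of_trace_eq_zero h1
    rw [Matrix.trace_toLin'_eq, ht]
  exact (LinearEquiv.map_eq_zero_iff Matrix.toLin').1 h3

theorem pf_CSX (hCPO : T_CPO) (hCPW : T_CPW) (hNIL : T_NIL) (hXPA : T_XPA) (hIDX : T_IDX) :
    T_CSX := by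
  intro K _ _ W hW V L hL r m T S ε hε hεε hvan n hnum
  obtain ⟨ρ, hρ⟩ : ∃ ρ : W.Hom T T, ρ = 1 - ε := ⟨_, rfl⟩
  rw [← hρ] at hnum ⊢
  have hρc : ρ ∈ W.cyc T T 0 := by
    rw [hρ]
    exact (W.cyc T T 0).sub_mem (hW.calculus.one_mem T) hε
  have hρρ : ρ * ρ = ρ := by
    rw [hρ, sub_mul, one_mul, mul_sub, mul_one, hεε, sub_self, sub_zero]
  have hdeg : ∀ a b, ρ a b ≠ 0 → W.deg T a = W.deg T b := by
    intro a b hab
    have := hW.calculus.cyc_deg T T 0 ρ hρc a b hab
    omega
  have hpar : ∀ a b, ρ a b ≠ 0 → W.par T a = W.par T b := by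
    intro a b hab
    unfold Weil.par
    rw [hdeg a b hab]
  obtain ⟨Pn, hPn⟩ : ∃ Pn : W.Hom (S.powers.pow n) (S.powers.pow n),
    Pn = S.powers.permPow (-1) ρ n := ⟨_, rfl⟩
  rw [← hPn] at hnum ⊢
  have hPc : Pn ∈ W.cyc (S.powers.pow n) (S.powers.pow n) 0 := by
    rw [hPn]
    exact hXPA K W hW m T S.powers ρ hρc (-1) (Or.inr rfl) n
  -- the bijection of the basis of the power with the words
  obtain ⟨σ, hσ⟩ : ∃ σ : Fin (W.rk (S.powers.pow n)) ≃ List.Vector (Fin (W.rk T)) n,
      ∀ a, (σ a).1 = S.powers.word n a := by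
    refine ⟨Equiv.ofBijective (fun a => ⟨S.powers.word n a, (S.powers.word_range n _).1 ⟨a, rfl⟩⟩)
      ⟨fun a b h => S.powers.word_inj n (congrArg Subtype.val h), fun v => ?_⟩, fun a => rfl⟩
    obtain ⟨a, ha⟩ := (S.powers.word_range n v.1).2 v.2
    exact ⟨a, Subtype.ext ha⟩
  have hPs : Pn = (Xp (-1) (W.par T) ρ n).submatrix σ σ := by
    rw [hPn]
    ext a b
    show xp (-1) (W.par T) ρ (S.powers.word n a) (S.powers.word n b) =
      xp (-1) (W.par T) ρ (σ a).1 (σ b).1
    rw [hσ, hσ]
  have hPP : Pn * Pn = (n.factorial : K) • Pn := by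
    have e1 := hIDX K (Fin (W.rk T)) (W.par T) ρ hpar hρρ (-1) (Or.inr rfl) n
    rw [hPs, Matrix.submatrix_mul_equiv, e1]
    rfl
  have hn : (n.factorial : K) ≠ 0 := Nat.cast_ne_zero.2 (Nat.factorial_ne_zero n)
  constructor
  · intro hC
    have hno := (hNIL K W hW m (S.powers.pow n)).2
      ((hNIL K W hW m (S.powers.pow n)).1 (hCPW K W hW m T S.powers hC n))
    obtain ⟨e, he⟩ : ∃ e : W.Hom (S.powers.pow n) (S.powers.pow n),
      e = ((n.factorial : K)⁻¹) • Pn := ⟨_, rfl⟩
    have hec : e ∈ W.cyc (S.powers.pow n) (S.powers.pow n) 0 := by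
      have e1 : e = ((n.factorial : ℚ)⁻¹) • Pn := by
        rw [he]
        ext a b
        rw [Matrix.smul_apply, Matrix.smul_apply, Rat.smul_def, smul_eq_mul]
        push_cast
        rfl
      rw [e1]
      exact (W.cyc _ _ 0).smul_mem _ hPc
    have hee : e * e = e := by
      rw [he, Matrix.smul_mul, Matrix.mul_smul, hPP, smul_smul (n.factorial : K)⁻¹
        (n.factorial : K), inv_mul_cancel₀ hn, one_smul]
    have hnt : W.NumTrivial (S.powers.pow n) e := by
      intro g hg
      have e1 : W.comp g e = ((n.factorial : K)⁻¹) • (W.comp g Pn) := by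
        show g * e = ((n.factorial : K)⁻¹) • (g * Pn)
        rw [he, Matrix.mul_smul]
      have e2 : W.str (W.comp g Pn) = 0 := hnum g hg
      rw [e1]
      unfold Weil.str at e2 ⊢
      calc ∑ a, (-1 : K) ^ W.deg (S.powers.pow n) a *
            ((((n.factorial : K)⁻¹) • (W.comp g Pn)) a a) =
          ∑ a, (n.factorial : K)⁻¹ *
            ((-1 : K) ^ W.deg (S.powers.pow n) a * (W.comp g Pn) a a) := by
            refine Finset.sum_congr rfl fun a _ => ?_
            rw [Matrix.smul_apply, smul_eq_mul]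
            ring
        _ = 0 := by rw [← Finset.mul_sum, e2, mul_zero]
    have h0 := hno e hec hee hnt
    rw [he] at h0
    rcases smul_eq_zero.1 h0 with h | h
    · exact absurd h (inv_ne_zero hn)
    · exact h
  · intro hP0
    have hdiag : ∀ a, Odd (W.deg T a) → ρ a a = 0 := by
      intro a ha
      have hpa : W.par T a = true := by
        unfold Weil.par
        exact decide_eq_true ha
      obtain ⟨b, hb⟩ := (S.powers.word_range n (List.replicate n a)).2 List.length_replicate
      have e1 : Pn b b = 0 := by rw [hP0]; rfl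
      have e2 : Pn b b = xp (-1) (W.par T) ρ (S.powers.word n b) (S.powers.word n b) := by
        rw [hPn]; rfl
      rw [e2, hb, xp_rep _ ρ a hpa] at e1
      by_contra hne
      exact (mul_ne_zero hn (pow_ne_zero n hne)) e1
    obtain ⟨E, hEd⟩ : ∃ E : W.Hom T T, E =
        Matrix.diagonal (fun a => if Odd (W.deg T a) then (1 : K) else 0) := ⟨_, rfl⟩
    have hEE : E * E = E := by
      rw [hEd, Matrix.diagonal_mul_diagonal]
      congr 1
      funext a
      split_ifs <;> simp
    have hEρ : E * ρ = ρ * E := by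
      ext a b
      rw [hEd, Matrix.diagonal_mul, Matrix.mul_diagonal]
      by_cases hz : ρ a b = 0
      · rw [hz, mul_zero, zero_mul]
      · rw [hdeg a b hz, mul_comm]
    have hM : (E * ρ) * (E * ρ) = E * ρ := by
      calc (E * ρ) * (E * ρ) = E * (ρ * E) * ρ := by simp only [Matrix.mul_assoc]
        _ = E * (E * ρ) * ρ := by rw [hEρ]
        _ = (E * E) * (ρ * ρ) := by simp only [Matrix.mul_assoc]
        _ = E * ρ := by rw [hEE, hρρ]
    have hT : (E * ρ).trace = 0 := by
      unfold Matrix.trace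
      refine Finset.sum_eq_zero fun a _ => ?_
      rw [Matrix.diag_apply, hEd, Matrix.diagonal_mul]
      by_cases ha : Odd (W.deg T a)
      · rw [hdiag a ha, mul_zero]
      · rw [if_neg ha, zero_mul]
    have hz := idem_zero (E * ρ) hM hT
    refine hCPO K W hW V L hL r m T S ε hε hvan ?_
    intro a b hab
    rw [← hρ] at hab
    by_contra heven
    have ha : Odd (W.deg T a) := Nat.not_even_iff_odd.1 heven
    have e1 : (E * ρ) a b = ρ a b := by
      rw [hEd, Matrix.diagonal_mul, if_pos ha, one_mul]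
    rw [hz] at e1
    exact hab e1.symm

end Pool.Agent.H44.EK
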